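import Mathlib
import Pool.Agent.Work.MP_afef76_ag.Closed
import Pool.Agent.Work.MP_afef76_ag.General

/-!
# Multiplier ideals of eleven general points on a smooth plane cubic
-/

set_option autoImplicit false

open MvPolynomial Pool.Agent.MPafef76 in
/-- **Multiplier ideals of eleven general points on a smooth plane cubic.** -/
theorem Pool.Agent.Results.MP_afef76_ag.MultiplierIdeals.result
    (F : MvPolynomial (Fin 3) ℂ) (hF : F.IsHomogeneous 3) (hs : SmoothForm F) :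
    ∃ P : MvPolynomial (Fin 11 × Fin 3) ℂ,
      (∃ z : Fin 11 → Fin 3 → ℂ, (∀ i, z i ≠ 0 ∧ eval (z i) F = 0) ∧
        eval (fun ij => z ij.1 ij.2) P ≠ 0) ∧
      (∀ (z : Fin 11 → Fin 3 → ℂ) (l : Fin 11 → ℂ), (∀ i, l i ≠ 0) →
        (eval (fun ij => l ij.1 * z ij.1 ij.2) P ≠ 0 ↔ eval (fun ij => z ij.1 ij.2) P ≠ 0)) ∧
      ∀ z : Fin 11 → Fin 3 → ℂ, (∀ i, z i ≠ 0 ∧ eval (z i) F = 0) →
        eval (fun ij => z ij.1 ij.2) P ≠ 0 →
        (∀ i j, i ≠ j → ∀ t : ℂ, z j ≠ t • z i) ∧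
        ∃ G H : MvPolynomial (Fin 3) ℂ, G.IsHomogeneous 4 ∧ H.IsHomogeneous 5 ∧
          coneIdeal z = Ideal.span {F, G, H} ∧
          (∀ c : ℝ, 0 < c → c < 1 → multiplierIdeal (coneIdeal z) c = ⊤) ∧
          (∀ (n : ℕ) (s : ℝ), 0 ≤ s → s < 1 →
            multiplierIdeal (coneIdeal z) (n + 1 + s) =
              coneIdeal z ^ (n + 1) ⊔
              Ideal.span (Set.range X) ^ (⌊4 * s⌋₊ + 1) * Ideal.span {F, G} ^ n ⊔
              Ideal.span (Set.range X) ^ ⌊5 * s⌋₊ * (Ideal.span {H} * coneIdeal z ^ (n - 1))) ∧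
          {c : ℝ | 0 < c ∧ ∀ c' : ℝ, 0 < c' → c' < c →
            multiplierIdeal (coneIdeal z) c' ≠ multiplierIdeal (coneIdeal z) c} =
            {c : ℝ | ∃ m : ℕ, 4 ≤ m ∧ c = m / 4} ∪ {c : ℝ | ∃ m : ℕ, 10 ≤ m ∧ c = m / 5} := by
  obtain ⟨a, P, hP1, hP2, hP3⟩ := exists_open hF hs
  refine ⟨P, hP1, hP2, fun z hz hPz => ?_⟩
  have hgood := hP3 z hPz
  obtain ⟨G, H, q, hcfg⟩ := hgood.config hF hs (fun i => (hz i).1) (fun i => (hz i).2)
  have hI : coneIdeal z = Ideal.span {F, G, H} := by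
    ext f
    rw [mem_coneIdeal]
    exact hcfg.ideal f
  refine ⟨?_, G, H, hcfg.hG, hcfg.hH, hI, ?_, ?_, ?_⟩
  · intro i j hij t h
    exact hcfg.z_par i j hij (by rw [h]; exact par_smul _ _)
  · intro c hc0 hc1
    rw [hI, hcfg.multiplierIdeal_eq hc0, expIdeal_low F G H hc1]
  · intro n s hs0 hs1
    have hpos : (0 : ℝ) < n + 1 + s := by positivity
    rw [hI, hcfg.multiplierIdeal_eq hpos, expIdeal_closed F G H n hs0 hs1]
  · rw [hI]
    exact hcfg.jumping
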